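import Pool.Agent.L0h7.SS.Stm

set_option autoImplicit false

open CategoryTheory

noncomputable section

namespace Pool.Agent.L0h36.SS

open Pool.Agent.Y75.NK Pool.Agent.L0h7.KN Pool.Agent.L0h7.SS

/-- the generator `x_i` -/
def gen {n : ℕ} {G : GrpCat.{0}} (t : Fin n → G) (i : Fin n) : Raag t :=
  QuotientGroup.mk' (Subgroup.normalClosure (comRels t)) (FreeGroup.of i)

theorem gen_comm {n : ℕ} {G : GrpCat.{0}} (t : Fin n → G) {i j : Fin n}
    (h : t i * t j = t j * t i) : gen t i * gen t j = gen t j * gen t i := by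
  have h1 : FreeGroup.of i * FreeGroup.of j * (FreeGroup.of j * FreeGroup.of i)⁻¹ ∈
      Subgroup.normalClosure (comRels t) :=
    Subgroup.subset_normalClosure ⟨i, j, h, rfl⟩
  have h2 : QuotientGroup.mk' (Subgroup.normalClosure (comRels t))
      (FreeGroup.of i * FreeGroup.of j * (FreeGroup.of j * FreeGroup.of i)⁻¹) = 1 :=
    (QuotientGroup.eq_one_iff _).2 h1
  rw [map_mul, map_inv, mul_inv_eq_one, map_mul, map_mul] at h2
  exact h2

theorem raagMap_gen {n : ℕ} {G : GrpCat.{0}} (t : Fin n → G) (i : Fin n) :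
    (raagMap t).hom (gen t i) = t i := by
  show FreeGroup.lift t (FreeGroup.of i) = t i
  exact FreeGroup.lift_apply_of

open Classical in
/-- the map `t_i t_j ↦ x_i x_j` -/
def ph {n : ℕ} {G : GrpCat.{0}} (t : Fin n → G) (g : G) : Raag t :=
  if g = 1 then 1 else
    if h : ∃ i, t i = g then gen t h.choose else
      if h : ∃ p : Fin n × Fin n, t p.1 * t p.2 = g then gen t h.choose.1 * gen t h.choose.2 else 1

theorem ph_one {n : ℕ} {G : GrpCat.{0}} (t : Fin n → G) : ph t 1 = 1 := if_pos rfl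

theorem ph_gen {n : ℕ} {G : GrpCat.{0}} {t : Fin n → G} (ht : OnlyCommutations t) (i : Fin n) :
    ph t (t i) = gen t i := by
  have h : ∃ j, t j = t i := ⟨i, rfl⟩
  unfold ph
  rw [if_neg (ht.1 i), dif_pos h, ht.2.1 h.choose_spec]

theorem ph_mul {n : ℕ} {G : GrpCat.{0}} {t : Fin n → G} (ht : OnlyCommutations t) (i j : Fin n) :
    ph t (t i * t j) = gen t i * gen t j := by
  have h1 : ¬ ∃ k, t k = t i * t j := fun ⟨k, hk⟩ => ht.2.2.2.1 i j k hk.symm
  have h : ∃ p : Fin n × Fin n, t p.1 * t p.2 = t i * t j := ⟨(i, j), rfl⟩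
  unfold ph
  rw [if_neg (ht.2.2.1 i j), dif_neg h1, dif_pos h]
  have h2 := h.choose_spec
  generalize h.choose = p at h2
  obtain ⟨k, l⟩ := p
  rcases ht.2.2.2.2 _ _ _ _ h2 with ⟨h3, h4⟩ | ⟨h3, h4⟩
  · simp only at h3 h4
    rw [h3, h4]
  · simp only at h2 h3 h4
    rw [h3, h4] at h2 ⊢
    exact gen_comm t h2

theorem t_RAG : S_RAG := by
  intro push R _ m n G t ht e he
  refine push R m G (Raag t) (insert 1 (Set.range t)) (ph t) (raagMap t) ?_ ?_ e he
  · rintro a (rfl | ⟨i, rfl⟩) b (rfl | ⟨j, rfl⟩)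
    · rw [ph_one, mul_one, mul_one, ph_one]
    · rw [ph_one, one_mul, one_mul]
    · rw [ph_one, mul_one, mul_one]
    · rw [ph_mul ht, ph_gen ht, ph_gen ht]
  · rintro a (rfl | ⟨i, rfl⟩)
    · rw [ph_one, map_one]
    · rw [ph_gen ht, raagMap_gen]

end Pool.Agent.L0h36.SS
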