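import Pool.Agent.L0h7.SS.Stm

set_option autoImplicit false

open CategoryTheory

noncomputable section

namespace Pool.Agent.L0h36.SS

open Pool.Agent.Y75.NK Pool.Agent.L0h7.KN Pool.Agent.L0h7.SS

open Classical in
theorem t_SUBG : S_SUBG := by
  intro push R _ m G H e he
  refine push R m G (GrpCat.of H) (H : Set G)
    (fun g => if h : g ∈ H then (⟨g, h⟩ : H) else (1 : H)) (GrpCat.ofHom H.subtype) ?_ ?_ e he
  · intro a ha b hb
    have ha' : a ∈ H := ha
    have hb' : b ∈ H := hb
    have hab : a * b ∈ H := H.mul_mem ha' hb'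
    show (if h : a * b ∈ H then (⟨a * b, h⟩ : H) else (1 : H)) =
      (if h : a ∈ H then (⟨a, h⟩ : H) else (1 : H)) * (if h : b ∈ H then (⟨b, h⟩ : H) else (1 : H))
    rw [dif_pos hab, dif_pos ha', dif_pos hb']
    rfl
  · intro t ht
    have ht' : t ∈ H := ht
    show H.subtype (if h : t ∈ H then (⟨t, h⟩ : H) else (1 : H)) = t
    rw [dif_pos ht']
    rfl

end Pool.Agent.L0h36.SS
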