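import Pool.Agent.L0h7.SS.Stm

set_option autoImplicit false

open CategoryTheory

noncomputable section

namespace Pool.Agent.L0h36.SS

open Pool.Agent.Y75.NK Pool.Agent.L0h7.KN Pool.Agent.L0h7.SS

theorem t_TWO : S_TWO := by
  intro G hG t
  by_cases hc : t 0 * t 1 = t 1 * t 0
  · exact Or.inl hc
  by_cases hs : t 0 ^ 2 = t 1 ^ 2
  · exact Or.inr (Or.inl hs)
  refine Or.inr (Or.inr ⟨?_, hc⟩)
  have hc' : t 1 * t 0 ≠ t 0 * t 1 := fun h => hc h.symm
  have hs' : t 1 ^ 2 ≠ t 0 ^ 2 := fun h => hs h.symm
  have key : ∀ i j : Fin 2, i ≠ j → t i * t j ≠ t j * t i := by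
    intro i j hij h
    fin_cases i <;> fin_cases j
    · exact hij rfl
    · exact hc h
    · exact hc' h
    · exact hij rfl
  have ksq : ∀ i j : Fin 2, i ≠ j → t i ^ 2 ≠ t j ^ 2 := by
    intro i j hij h
    fin_cases i <;> fin_cases j
    · exact hij rfl
    · exact hs h
    · exact hs' h
    · exact hij rfl
  have other : ∀ i : Fin 2, ∃ j, i ≠ j := by
    intro i
    fin_cases i
    · exact ⟨1, by decide⟩
    · exact ⟨0, by decide⟩
  have h1 : ∀ i, t i ≠ 1 := by
    intro i hi
    obtain ⟨j, hij⟩ := other i
    exact key i j hij (by rw [hi, one_mul, mul_one])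
  have h2 : Function.Injective t := by
    intro i j h
    by_contra hij
    exact key i j hij (by rw [h])
  have h3 : ∀ i j, t i * t j ≠ 1 := by
    intro i j h
    by_cases hij : i = j
    · subst hij
      exact h1 i (hG (t i) 2 (by norm_num) (by rw [pow_two]; exact h))
    · exact key i j hij (by rw [h, mul_eq_one_comm.1 h])
  have h4 : ∀ i j k, t i * t j ≠ t k := by
    intro i j k h
    by_cases hki : k = i
    · subst hki
      exact h1 j (mul_left_cancel (a := t k) (by rw [h, mul_one]))
    by_cases hkj : k = j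
    · subst hkj
      exact h1 i (mul_right_cancel (b := t k) (by rw [h, one_mul]))
    have hij : i = j := by
      revert hki hkj
      fin_cases i <;> fin_cases j <;> fin_cases k <;> simp
    subst hij
    exact key k i hki (by rw [← h, mul_assoc])
  refine ⟨h1, h2, h3, h4, ?_⟩
  intro i j k l h
  by_cases hik : i = k
  · subst hik
    exact Or.inl ⟨rfl, h2 (mul_left_cancel h)⟩
  by_cases hjl : j = l
  · subst hjl
    exact Or.inl ⟨h2 (mul_right_cancel h), rfl⟩
  by_cases hij : i = j
  · subst hij
    have hkl : k = l := by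
      revert hik hjl
      fin_cases i <;> fin_cases k <;> fin_cases l <;> simp
    subst hkl
    exact absurd (by rw [pow_two, pow_two]; exact h) (ksq i k hik)
  · right
    revert hik hjl hij
    fin_cases i <;> fin_cases j <;> fin_cases k <;> fin_cases l <;> simp

end Pool.Agent.L0h36.SS
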